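import Mathlib

/-!
# Structures with a finite domain, pp-formulas, pp-powers, pp-constructions

The signature of a structure may be finite or infinite; `FinSig` says that it is finite.
(The proofs in this folder follow the starting files `Pool/Agent/H796R3/TaskA.lean` and
`TaskB.lean`, which treat structures with finitely many relations and pp-powers with a definable
domain.)
-/

namespace Pool.Agent.X235.PPC

/-- A relational structure with a finite nonempty domain and relations of positive arities. The
signature is arbitrary. -/
structure Str where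
  /-- the domain -/
  dom : Type
  /-- the domain is finite -/
  finDom : Finite dom
  /-- the domain is not empty -/
  neDom : Nonempty dom
  /-- the relation symbols -/
  sym : Type
  /-- the arities -/
  ar : sym → ℕ
  /-- the arities are positive -/
  pos : ∀ s, 0 < ar s
  /-- the relations -/
  rel : ∀ s, (Fin (ar s) → dom) → Prop

attribute [instance] Str.finDom Str.neDom

/-- The signature is finite, so `A` is a finite structure. -/
def Str.FinSig (A : Str) : Prop := Finite A.sym

/-- pp-formulas in `n` free variables over a relational signature: atomic formulas `x = y` and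
`R(x, ..., y)`, conjunction and existential quantification. -/
inductive PP (S : Type) (ar : S → ℕ) : ℕ → Type
  | eq {n : ℕ} (i j : Fin n) : PP S ar n
  | rel {n : ℕ} (s : S) (v : Fin (ar s) → Fin n) : PP S ar n
  | and {n : ℕ} (p q : PP S ar n) : PP S ar n
  | ex {n : ℕ} (p : PP S ar (n + 1)) : PP S ar n

/-- Satisfaction of a pp-formula. -/
def PP.Holds (A : Str) : ∀ {n : ℕ}, PP A.sym A.ar n → (Fin n → A.dom) → Prop
  | _, .eq i j, v => v i = v j
  | _, .rel s w, v => A.rel s (fun k => v (w k))
  | _, .and p q, v => PP.Holds A p v ∧ PP.Holds A q v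
  | _, .ex p, v => ∃ a : A.dom, PP.Holds A p (Fin.snoc v a)

/-- Concatenation of `k` tuples of length `d`. -/
def concat {k d : ℕ} {α : Type} (x : Fin k → Fin d → α) : Fin (k * d) → α :=
  fun j => x (finProdFinEquiv.symm j).1 (finProdFinEquiv.symm j).2

/-- Homomorphisms between two structures over the same signature. -/
def IsHom {S : Type} {ar : S → ℕ} {X Y : Type} (R : ∀ s, (Fin (ar s) → X) → Prop)
    (Q : ∀ s, (Fin (ar s) → Y) → Prop) (h : X → Y) : Prop :=
  ∀ s x, R s x → Q s (fun k => h (x k))

/-- The relations of the `d`-th pp-power given by the formulas `ψ`: its domain is `A ^ d`, and its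
relations, read as relations of arity `k * d` on `A`, are those defined by `ψ`. -/
def powRel (A : Str) {S : Type} {ar : S → ℕ} {d : ℕ} (ψ : ∀ s : S, PP A.sym A.ar (ar s * d))
    (s : S) (x : Fin (ar s) → Fin d → A.dom) : Prop :=
  (ψ s).Holds A (concat x)

/-- `B` has a pp-construction from `A`: some pp-power of `A` (of some dimension `d ≥ 1`) is
homomorphically equivalent to `B`. -/
def PPConstructs (A B : Str) : Prop :=
  ∃ (d : ℕ) (_ : 0 < d) (ψ : ∀ s : B.sym, PP A.sym A.ar (B.ar s * d)),
    (∃ h : (Fin d → A.dom) → B.dom, IsHom (powRel A ψ) B.rel h) ∧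
    (∃ h : B.dom → Fin d → A.dom, IsHom B.rel (powRel A ψ) h)

/-- `P₂`: the domain has two elements `0`, `1`, and the only relation is `{(0, 1)}`. -/
def P2 : Str where
  dom := Fin 2
  finDom := inferInstance
  neDom := inferInstance
  sym := Unit
  ar _ := 2
  pos _ := by norm_num
  rel _ x := x 0 = 0 ∧ x 1 = 1

/-- `T₃`: the strict order of three elements. -/
def T3 : Str where
  dom := Fin 3
  finDom := inferInstance
  neDom := inferInstance
  sym := Unit
  ar _ := 2
  pos _ := by norm_num
  rel _ x := x 0 < x 1

end Pool.Agent.X235.PPC
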