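import Mathlib
import Pool.Agent.X235.PPC.Defs

/-!
# pp-constructions and minor-preserving maps
-/

set_option autoImplicit false

namespace Pool.Agent.X235.PPC

/-- `f` preserves all relations of `A`. -/
def IsPol (A : Str) (I : Type) (f : (I → A.dom) → A.dom) : Prop :=
  ∀ (s : A.sym) (x : I → Fin (A.ar s) → A.dom), (∀ i, A.rel s (x i)) →
    A.rel s (fun k => f (fun i => x i k))

/-- The `n`-ary polymorphisms of `A`. -/
def Pol (A : Str) (n : ℕ) : Type := {f : (Fin n → A.dom) → A.dom // IsPol A (Fin n) f}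

/-- The minor `x ↦ f (x ∘ π)`. -/
def Pol.minor {A : Str} {n m : ℕ} (f : Pol A n) (π : Fin n → Fin m) : Pol A m :=
  ⟨fun x => f.1 (fun i => x (π i)), fun s x hx => f.2 s (fun i => x (π i)) (fun i => hx (π i))⟩

/-- There is a minor-preserving map `Pol A → Pol B`. -/
def MinorMap (A B : Str) : Prop :=
  ∃ ξ : ∀ n, Pol A n → Pol B n, ∀ (n m : ℕ) (π : Fin n → Fin m) (f : Pol A n),
    ξ m (f.minor π) = (ξ n f).minor π

theorem MinorMap.trans {A B C : Str} (h1 : MinorMap A B) (h2 : MinorMap B C) : MinorMap A C := by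
  obtain ⟨ξ, hξ⟩ := h1
  obtain ⟨η, hη⟩ := h2
  refine ⟨fun n f => η n (ξ n f), fun n m π f => ?_⟩
  show η m (ξ m (f.minor π)) = (η n (ξ n f)).minor π
  rw [hξ, hη]

theorem PP.preserved (A : Str) {m : ℕ} (f : Pol A m) {n : ℕ} (p : PP A.sym A.ar n) :
    ∀ x : Fin m → Fin n → A.dom, (∀ i, p.Holds A (x i)) →
      p.Holds A (fun j => f.1 (fun i => x i j)) := by
  induction p with
  | eq i j =>
    intro x hx
    exact congrArg f.1 (funext fun k => hx k)
  | rel s w =>
    intro x hx
    exact f.2 s (fun k => fun l => x k (w l)) hx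
  | and p q hp hq =>
    intro x hx
    exact ⟨hp x (fun i => (hx i).1), hq x (fun i => (hx i).2)⟩
  | ex p hp =>
    intro x hx
    choose a ha using hx
    refine ⟨f.1 a, ?_⟩
    have h := hp (fun i => Fin.snoc (x i) (a i)) ha
    have e : (fun j => f.1 (fun i => (Fin.snoc (x i) (a i) : Fin _ → A.dom) j)) =
        (Fin.snoc (fun j => f.1 (fun i => x i j)) (f.1 a) : Fin _ → A.dom) := by
      funext j
      refine Fin.lastCases ?_ (fun j => ?_) j
      · simp
      · simp
    rw [e] at h
    exact h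

theorem minorMap_of_pp {A B : Str} (h : PPConstructs A B) : MinorMap A B := by
  obtain ⟨d, -, ψ, ⟨al, hal⟩, ⟨be, hbe⟩⟩ := h
  let F : ∀ {m : ℕ}, Pol A m → (Fin m → Fin d → A.dom) → Fin d → A.dom := fun f c j =>
    f.1 (fun i => c i j)
  refine ⟨fun m f => ⟨fun b => al (F f (fun i => be (b i))), ?_⟩, ?_⟩
  · intro s x hx
    apply hal s
    change (ψ s).Holds A (concat (fun k => (F f (fun i => be (x i k)))))
    have h1 : ∀ i, (ψ s).Holds A (concat (fun k => (be (x i k)))) := fun i => hbe s (x i) (hx i)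
    exact PP.preserved A f (ψ s) (fun i => concat (fun k => (be (x i k)))) h1
  · intro m k π f
    rfl

section combin
variable {A : Str}

/-- conjunction of a list -/
def bigAnd {S : Type} {ar : S → ℕ} {n : ℕ} (i₀ : Fin n) : List (PP S ar n) → PP S ar n
  | [] => .eq i₀ i₀
  | p :: l => .and p (bigAnd i₀ l)

lemma holds_bigAnd {n : ℕ} (i₀ : Fin n) (l : List (PP A.sym A.ar n)) (v : Fin n → A.dom) :
    (bigAnd i₀ l).Holds A v ↔ ∀ p ∈ l, p.Holds A v := by
  induction l with
  | nil => simp [bigAnd, PP.Holds]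
  | cons p l ih =>
    change p.Holds A v ∧ (bigAnd i₀ l).Holds A v ↔ _
    rw [ih]
    simp

/-- conjunction over a finite type -/
noncomputable def conj {S : Type} {ar : S → ℕ} {n : ℕ} (i₀ : Fin n) (I : Type) [Finite I]
    (p : I → PP S ar n) : PP S ar n :=
  letI := Fintype.ofFinite I
  bigAnd i₀ ((Finset.univ : Finset I).toList.map p)

lemma holds_conj {n : ℕ} (i₀ : Fin n) (I : Type) [Finite I] (p : I → PP A.sym A.ar n)
    (v : Fin n → A.dom) : (conj i₀ I p).Holds A v ↔ ∀ i, (p i).Holds A v := by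
  unfold conj
  rw [holds_bigAnd]
  simp

/-- `M`-fold existential quantification -/
def exN {S : Type} {ar : S → ℕ} {n : ℕ} : (M : ℕ) → PP S ar (n + M) → PP S ar n
  | 0, p => p
  | M + 1, p => exN M (.ex p)

lemma holds_exN {n : ℕ} (M : ℕ) (p : PP A.sym A.ar (n + M)) (v : Fin n → A.dom) :
    (exN M p).Holds A v ↔ ∃ w : Fin M → A.dom, p.Holds A (Fin.append v w) := by
  induction M with
  | zero =>
    change p.Holds A v ↔ _
    constructor
    · intro h
      refine ⟨Fin.elim0, ?_⟩
      rw [Fin.append_elim0]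
      exact h
    · rintro ⟨w, hw⟩
      have : Fin.append v w = v := by
        rw [Subsingleton.elim w Fin.elim0, Fin.append_elim0]; rfl
      rw [this] at hw
      exact hw
  | succ M ih =>
    change (exN M (.ex p)).Holds A v ↔ _
    rw [ih]
    constructor
    · rintro ⟨w, a, h⟩
      refine ⟨Fin.snoc w a, ?_⟩
      rw [Fin.append_snoc]
      exact h
    · rintro ⟨w, h⟩
      refine ⟨Fin.init w, w (Fin.last M), ?_⟩
      rw [← Fin.snoc_init_self w, Fin.append_snoc] at h
      exact h

end combin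

section polform
variable (A : Str)

/-- index of atoms saying that a function `(I → A.dom) → A.dom` is a polymorphism -/
def AtomIdx (I : Type) : Type := Σ s : A.sym, (I → {r : Fin (A.ar s) → A.dom // A.rel s r})

instance (I : Type) [Finite I] [Finite A.sym] : Finite (AtomIdx A I) := by
  unfold AtomIdx
  infer_instance

/-- formula saying that `y ↦ v (pos y)` is a polymorphism -/
noncomputable def polF [Finite A.sym] (I : Type) [Finite I] {n : ℕ} (i₀ : Fin n)
    (pos : (I → A.dom) → Fin n) : PP A.sym A.ar n :=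
  conj i₀ (AtomIdx A I) (fun q => .rel q.1 (fun k => pos (fun i => (q.2 i).1 k)))

lemma holds_polF [Finite A.sym] (I : Type) [Finite I] {n : ℕ} (i₀ : Fin n)
    (pos : (I → A.dom) → Fin n) (v : Fin n → A.dom) :
    (polF A I i₀ pos).Holds A v ↔ IsPol A I (fun y => v (pos y)) := by
  unfold polF
  rw [holds_conj]
  constructor
  · intro h s x hx
    exact h ⟨s, fun i => ⟨x i, hx i⟩⟩
  · rintro h ⟨s, X⟩
    exact h s (fun i => (X i).1) (fun i => (X i).2)

end polform

/-- The tuples in the relation `s` of `B`. -/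
abbrev Tup (B : Str) (s : B.sym) : Type := {r : Fin (B.ar s) → B.dom // B.rel s r}

/-- `h` turns the canonical relations on the `B.dom`-ary operations of `A` into the relation `s` of
`B`. -/
def GoodAt (A B : Str) (h : ((B.dom → A.dom) → A.dom) → B.dom) (s : B.sym) : Prop :=
  ∀ x : Fin (B.ar s) → (B.dom → A.dom) → A.dom,
    (∃ g : (Tup B s → A.dom) → A.dom, IsPol A (Tup B s) g ∧
      ∀ i z, x i z = g (fun r => z (r.1 i))) → B.rel s (fun k => h (x k))

/-- A minor-preserving map gives a canonical homomorphism. -/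
theorem good_of_minorMap {A B : Str} (h : MinorMap A B) : ∃ h, ∀ s, GoodAt A B h s := by
  classical
  obtain ⟨ξ, hξ⟩ := h
  obtain ⟨m, ⟨eB⟩⟩ := Finite.exists_equiv_fin B.dom
  let toP : ∀ u : (B.dom → A.dom) → A.dom, IsPol A B.dom u → Pol A m := fun u hu =>
    ⟨fun x => u (fun b => x (eB b)), by
      intro s x hx
      exact hu s (fun b => x (eB b)) (fun b => hx (eB b))⟩
  refine ⟨fun u => if hu : IsPol A B.dom u then (ξ m (toP u hu)).1 eB.symm else
    Classical.arbitrary B.dom, fun s x ⟨g, hg, hgx⟩ => ?_⟩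
  obtain ⟨q, ⟨eR⟩⟩ := Finite.exists_equiv_fin (Tup B s)
  have hx : ∀ i, IsPol A B.dom (x i) := by
    intro i s' y hy
    simp only [hgx]
    exact hg s' (fun r => y (r.1 i)) (fun r => hy _)
  let g' : Pol A q := ⟨fun y => g (fun r => y (eR r)), by
    intro s' y hy
    exact hg s' (fun r => y (eR r)) (fun r => hy _)⟩
  have hmin : ∀ i, toP (x i) (hx i) = g'.minor (fun j => eB ((eR.symm j).1 i)) := by
    intro i
    apply Subtype.ext
    funext z
    change x i (fun b => z (eB b)) = g (fun r => z (eB ((eR.symm (eR r)).1 i)))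
    rw [hgx i]
    simp only [Equiv.symm_apply_apply]
  have hkey : ∀ i, (ξ m (toP (x i) (hx i))).1 eB.symm =
      (ξ q g').1 (fun j => (eR.symm j).1 i) := by
    intro i
    rw [hmin i, hξ]
    change (ξ q g').1 (fun j => eB.symm (eB ((eR.symm j).1 i))) = _
    simp only [Equiv.symm_apply_apply]
  simp only [hx, dif_pos, hkey]
  exact (ξ q g').2 s (fun j => (eR.symm j).1) (fun j => (eR.symm j).2)

/-- If `A` has a finite signature, a canonical homomorphism gives a pp-construction. -/
theorem pp_of_good {A B : Str} [Finite A.sym] (h : ∃ h, ∀ s, GoodAt A B h s) :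
    PPConstructs A B := by
  classical
  obtain ⟨hh, hgood⟩ := h
  obtain ⟨N, ⟨e⟩⟩ := Finite.exists_equiv_fin (B.dom → A.dom)
  have hN : 0 < N := by
    have := (e (Classical.arbitrary _)).isLt
    omega
  have hRf : ∀ s, ∃ M, Nonempty ((Tup B s → A.dom) ≃ Fin M) := fun s =>
    Finite.exists_equiv_fin _
  choose M hM using hRf
  let eM : ∀ s, (Tup B s → A.dom) ≃ Fin (M s) := fun s => (hM s).some
  -- positions
  let i₀ : ∀ s, Fin (B.ar s * N + M s) := fun s =>
    Fin.castAdd (M s) ⟨0, Nat.mul_pos (B.pos s) hN⟩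
  let pL : ∀ s, Fin (B.ar s) → (B.dom → A.dom) → Fin (B.ar s * N + M s) := fun s i x =>
    Fin.castAdd (M s) (finProdFinEquiv (i, e x))
  let pR : ∀ s, (Tup B s → A.dom) → Fin (B.ar s * N + M s) := fun s y =>
    Fin.natAdd (B.ar s * N) (eM s y)
  let ψ : ∀ s : B.sym, PP A.sym A.ar (B.ar s * N) := fun s =>
    exN (M s) (.and (polF A (Tup B s) (i₀ s) (pR s))
      (conj (i₀ s) (Fin (B.ar s) × (B.dom → A.dom))
        (fun z => .eq (pL s z.1 z.2) (pR s (fun r => z.2 (r.1 z.1))))))
  have hψ : ∀ (s : B.sym) (x : Fin (B.ar s) → Fin N → A.dom), (ψ s).Holds A (concat x) ↔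
      ∃ g : (Tup B s → A.dom) → A.dom, IsPol A (Tup B s) g ∧
        ∀ i (z : B.dom → A.dom), x i (e z) = g (fun r => z (r.1 i)) := by
    intro s x
    change (exN (M s) _).Holds A (concat x) ↔ _
    rw [holds_exN]
    have hL : ∀ (w : Fin (M s) → A.dom) i z,
        (Fin.append (concat x) w) (pL s i z) = x i (e z) := by
      intro w i z
      simp only [pL]
      rw [Fin.append_left]
      simp [concat]
    have hR : ∀ (w : Fin (M s) → A.dom) y,
        (Fin.append (concat x) w) (pR s y) = w (eM s y) := by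
      intro w y
      simp only [pR]
      rw [Fin.append_right]
    constructor
    · rintro ⟨w, h1, h2⟩
      rw [holds_polF] at h1
      rw [holds_conj] at h2
      refine ⟨fun y => w (eM s y), ?_, ?_⟩
      · simpa only [hR] using h1
      · intro i z
        have h3 : (Fin.append (concat x) w) (pL s i z) =
            (Fin.append (concat x) w) (pR s _) := h2 (i, z)
        rw [hL, hR] at h3
        exact h3
    · rintro ⟨g, h1, h2⟩
      refine ⟨fun j => g ((eM s).symm j), ?_, ?_⟩
      · rw [holds_polF]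
        simpa only [hR, Equiv.symm_apply_apply] using h1
      · rw [holds_conj]
        rintro ⟨i, z⟩
        change (Fin.append (concat x) _) (pL s i z) = (Fin.append (concat x) _) (pR s _)
        rw [hL, hR, h2, Equiv.symm_apply_apply]
  refine ⟨N, hN, ψ, ⟨fun c => hh (fun z => c (e z)), ?_⟩, ⟨fun b => fun j => (e.symm j) b, ?_⟩⟩
  · intro s x hx
    exact hgood s (fun i z => x i (e z)) ((hψ s x).mp hx)
  · intro s r hr
    change (ψ s).Holds A (concat (fun i => fun j => (e.symm j) (r i)))
    rw [hψ]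
    refine ⟨fun y => y ⟨r, hr⟩, fun s' x hx => hx _, fun i z => ?_⟩
    rw [Equiv.symm_apply_apply]

theorem pp_iff_minorMap {A B : Str} [Finite A.sym] : PPConstructs A B ↔ MinorMap A B :=
  ⟨minorMap_of_pp, fun h => pp_of_good (good_of_minorMap h)⟩

end Pool.Agent.X235.PPC
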