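import Mathlib
import Pool.Agent.X235.PPC.Minor

/-!
# Countably many obstructions to pp-constructibility from `P₂`
-/

set_option autoImplicit false

namespace Pool.Agent.X235.PPC

/-- Descriptions of the structures with domain `Fin n` and symbols `Fin k`. -/
abbrev Code : Type :=
  Σ (n : ℕ+) (k : ℕ) (ar : Fin k → ℕ+), ∀ s : Fin k, (Fin (ar s) → Fin n) → Bool

/-- The structure with a given description. -/
def Code.str (c : Code) : Str where
  dom := Fin c.1
  finDom := inferInstance
  neDom := ⟨⟨0, c.1.pos⟩⟩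
  sym := Fin c.2.1
  ar s := c.2.2.1 s
  pos s := (c.2.2.1 s).pos
  rel s x := c.2.2.2 s x = true

instance (c : Code) : Finite c.str.sym := inferInstanceAs (Finite (Fin c.2.1))

/-- The description of the structure with the relations `t 0, ..., t (k - 1)` of `B`. -/
noncomputable def code (B : Str) {n : ℕ+} (e : B.dom ≃ Fin n) {k : ℕ} (t : Fin k → B.sym) :
    Code := by
  classical
  exact ⟨n, k, fun i => ⟨B.ar (t i), B.pos (t i)⟩,
    fun i x => decide (B.rel (t i) (fun j => e.symm (x j)))⟩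

theorem code_rel (B : Str) {n : ℕ+} (e : B.dom ≃ Fin n) {k : ℕ} (t : Fin k → B.sym) (i : Fin k)
    (x : Fin (B.ar (t i)) → Fin n) :
    (code B e t).str.rel i x ↔ B.rel (t i) (fun j => e.symm (x j)) := by
  classical
  show decide (B.rel (t i) (fun j => e.symm (x j))) = true ↔ _
  rw [decide_eq_true_iff]

/-- A structure constructs its reducts. -/
theorem pp_code (B : Str) {n : ℕ+} (e : B.dom ≃ Fin n) {k : ℕ} (t : Fin k → B.sym) :
    PPConstructs B (code B e t).str := by
  refine ⟨1, Nat.one_pos, fun (i : Fin k) => PP.rel (t i)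
    (fun (j : Fin (B.ar (t i))) => finProdFinEquiv (j, (0 : Fin 1))), ⟨fun u => e (u 0), ?_⟩,
    ⟨fun a _ => e.symm a, ?_⟩⟩
  · intro i x hx
    rw [code_rel]
    simp only [Equiv.symm_apply_apply]
    have h1 : B.rel (t i) (fun j => concat x (finProdFinEquiv (j, (0 : Fin 1)))) := hx
    simpa [concat] using h1
  · intro i x hx
    rw [code_rel] at hx
    show B.rel (t i) (fun j => concat (fun (l : Fin (B.ar (t i))) (_ : Fin 1) => e.symm (x l))
      (finProdFinEquiv (j, (0 : Fin 1))))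
    simpa [concat] using hx

/-- Transfer of canonical homomorphisms from a coded reduct. -/
theorem goodAt_of_code {A B : Str} {n : ℕ+} (e : B.dom ≃ Fin n) {k : ℕ} (t : Fin k → B.sym)
    (h' : ((Fin n → A.dom) → A.dom) → Fin n)
    (hg : ∀ i : Fin k, GoodAt A (code B e t).str h' i) (i : Fin k) :
    GoodAt A B (fun u => e.symm (h' (fun z' => u (fun b => z' (e b))))) (t i) := by
  rintro x ⟨g, hgp, hgx⟩
  have h1 := hg i (fun k z' => x k (fun b => z' (e b))) ?_
  · exact (code_rel B e t i _).1 h1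
  · refine ⟨fun y => g (fun r => y ⟨fun j => e (r.1 j), (code_rel B e t i _).2 ?_⟩), ?_, ?_⟩
    · simp only [Equiv.symm_apply_apply]
      exact r.2
    · intro s y hy
      exact hgp s _ (fun r => hy _)
    · intro j z
      exact hgx j _

/-- Compactness: if `B` has no pp-construction from `A`, then some reduct of `B` with finitely many
relations has none. -/
theorem exists_code {A B : Str} [Finite A.sym] (h : ¬ PPConstructs A B) :
    ∃ c : Code, PPConstructs B c.str ∧ ¬ PPConstructs A c.str := by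
  classical
  obtain ⟨n, ⟨e⟩⟩ := Finite.exists_equiv_fin B.dom
  have hn : 0 < n := by
    have := (e (Classical.arbitrary _)).isLt
    omega
  let n' : ℕ+ := ⟨n, hn⟩
  let e' : B.dom ≃ Fin n' := e
  have h1 : ∀ hh, ∃ s, ¬ GoodAt A B hh s := by
    intro hh
    by_contra hc
    push Not at hc
    exact h (pp_of_good ⟨hh, hc⟩)
  choose s hs using h1
  obtain ⟨k, ⟨f⟩⟩ := Finite.exists_equiv_fin (((B.dom → A.dom) → A.dom) → B.dom)
  refine ⟨code B e' (fun i => s (f.symm i)), pp_code _ _ _, fun hc => ?_⟩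
  obtain ⟨h', hg⟩ := good_of_minorMap (minorMap_of_pp hc)
  have h2 := goodAt_of_code e' (fun i => s (f.symm i)) h' hg
    (f (fun u => e'.symm (h' (fun z' => u (fun b => z' (e' b))))))
  simp only [Equiv.symm_apply_apply] at h2
  exact hs _ h2

instance : Finite P2.sym := inferInstanceAs (Finite Unit)

/-- the minority operation -/
def mino (x : Fin 3 → Fin 2) : Fin 2 :=
  if x 0 = x 1 then x 2 else if x 1 = x 2 then x 0 else x 1

theorem mino_const (a : Fin 2) : mino (fun _ => a) = a := by simp [mino]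

/-- `T₃` has no pp-construction from `P₂`. -/
theorem not_pp_T3 : ¬ PPConstructs P2 T3 := by
  intro h
  obtain ⟨ξ, hξ⟩ := minorMap_of_pp h
  let m : Pol P2 3 := ⟨mino, by
    intro s x hx
    have h0 : ∀ i, x i (0 : Fin 2) = (0 : Fin 2) := fun i => (hx i).1
    have h1 : ∀ i, x i (1 : Fin 2) = (1 : Fin 2) := fun i => (hx i).2
    refine ⟨?_, ?_⟩
    · show mino (fun i => x i (0 : Fin 2)) = 0
      simp only [h0]
      exact mino_const 0
    · show mino (fun i => x i (1 : Fin 2)) = 1
      simp only [h1]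
      exact mino_const 1⟩
  have e1 : ∀ {T : Type} (x : Fin 2 → T),
      (fun i => x ((![0, 0, 1] : Fin 3 → Fin 2) i)) = ![x 0, x 0, x 1] := by
    intro T x; funext i; fin_cases i <;> rfl
  have e2 : ∀ {T : Type} (x : Fin 2 → T),
      (fun i => x ((![1, 1, 1] : Fin 3 → Fin 2) i)) = ![x 1, x 1, x 1] := by
    intro T x; funext i; fin_cases i <;> rfl
  have e3 : ∀ {T : Type} (x : Fin 2 → T),
      (fun i => x ((![1, 0, 0] : Fin 3 → Fin 2) i)) = ![x 1, x 0, x 0] := by
    intro T x; funext i; fin_cases i <;> rfl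
  have d1 : ∀ x : Fin 2 → Fin 2, mino (fun i => x ((![0, 0, 1] : Fin 3 → Fin 2) i)) =
      mino (fun i => x ((![1, 1, 1] : Fin 3 → Fin 2) i)) := by decide
  have d2 : ∀ x : Fin 2 → Fin 2, mino (fun i => x ((![1, 0, 0] : Fin 3 → Fin 2) i)) =
      mino (fun i => x ((![1, 1, 1] : Fin 3 → Fin 2) i)) := by decide
  have hm1 : m.minor ![0, 0, 1] = m.minor (m := 2) ![1, 1, 1] := by
    apply Subtype.ext
    funext x
    exact d1 x
  have hm2 : m.minor ![1, 0, 0] = m.minor (m := 2) ![1, 1, 1] := by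
    apply Subtype.ext
    funext x
    exact d2 x
  have h1 : (ξ 3 m).minor ![0, 0, 1] = (ξ 3 m).minor (m := 2) ![1, 1, 1] :=
    (hξ _ _ _ _).symm.trans ((congrArg (ξ 2) hm1).trans (hξ _ _ _ _))
  have h2 : (ξ 3 m).minor ![1, 0, 0] = (ξ 3 m).minor (m := 2) ![1, 1, 1] :=
    (hξ _ _ _ _).symm.trans ((congrArg (ξ 2) hm2).trans (hξ _ _ _ _))
  obtain ⟨F, hF⟩ : ∃ F : (Fin 3 → Fin 3) → Fin 3, F = (ξ 3 m).1 := ⟨_, rfl⟩
  have k1 : ∀ a b : Fin 3, F ![a, a, b] = F ![b, b, b] := by
    intro a b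
    have := congrFun (congrArg (fun f : Pol T3 2 => f.1) h1) (![a, b] : Fin 2 → Fin 3)
    have h3 : F (fun i => (![a, b] : Fin 2 → Fin 3) ((![0, 0, 1] : Fin 3 → Fin 2) i)) =
        F (fun i => (![a, b] : Fin 2 → Fin 3) ((![1, 1, 1] : Fin 3 → Fin 2) i)) := by
      rw [hF]; exact this
    rw [e1, e2] at h3
    simpa using h3
  have k2 : ∀ a b : Fin 3, F ![b, a, a] = F ![b, b, b] := by
    intro a b
    have := congrFun (congrArg (fun f : Pol T3 2 => f.1) h2) (![a, b] : Fin 2 → Fin 3)
    have h3 : F (fun i => (![a, b] : Fin 2 → Fin 3) ((![1, 0, 0] : Fin 3 → Fin 2) i)) =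
        F (fun i => (![a, b] : Fin 2 → Fin 3) ((![1, 1, 1] : Fin 3 → Fin 2) i)) := by
      rw [hF]; exact this
    rw [e3, e2] at h3
    simpa using h3
  have k3 : ∀ a b : Fin 3 → Fin 3, (∀ i, a i < b i) → F a < F b := by
    intro a b hab
    rw [hF]
    exact (ξ 3 m).2 () (fun i => (![a i, b i] : Fin 2 → Fin 3)) (fun i => hab i)
  have l1 : F ![0, 0, 1] < F ![1, 2, 2] := k3 _ _ (by decide)
  rw [k1 0 1, k2 2 1] at l1
  exact lt_irrefl _ l1

/-- There is a sequence of finite structures which is as required for all structures with a finite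
domain, whatever their signature. -/
theorem main : ∃ C : ℕ → Str, (∀ i, (C i).FinSig) ∧
    ∀ B : Str, ¬ PPConstructs P2 B ↔ ∃ i, PPConstructs B (C i) := by
  classical
  let S : Set Code := {c | ¬ PPConstructs P2 c.str}
  have hne : S.Nonempty := by
    obtain ⟨c, -, hc⟩ := exists_code not_pp_T3
    exact ⟨c, hc⟩
  have hcount : S.Countable := Set.to_countable S
  obtain ⟨f, hf⟩ := hcount.exists_eq_range hne
  refine ⟨fun i => (f i).str, fun i => inferInstanceAs (Finite (f i).str.sym), fun B =>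
    ⟨fun h => ?_, ?_⟩⟩
  · obtain ⟨c, h1, h2⟩ := exists_code h
    have : c ∈ S := h2
    rw [hf] at this
    obtain ⟨i, rfl⟩ := this
    exact ⟨i, h1⟩
  · rintro ⟨i, hi⟩ hB
    have : f i ∈ S := by
      rw [hf]
      exact ⟨i, rfl⟩
    exact this (pp_iff_minorMap.2 ((minorMap_of_pp hB).trans (minorMap_of_pp hi)))

end Pool.Agent.X235.PPC
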